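import Pool.Agent.Lib.FVol.Words

/-!
Directions at the vertices of a two-row polygon and admissible words; a Rauzy step maps admissible
words to admissible words.
-/

set_option autoImplicit false

namespace Pool.Agent.Lib.MP_e3aa0a_gt.SM13

open Pool.Agent.Lib.FVol

variable {A : Type*}

/-- the two extreme corners of the polygon with the rows `r true`, `r false` -/
inductive Lnk (r : Bool → List (A × Bool)) : A × Bool → A × Bool → Prop
  | left (σ : Bool) (s t : A × Bool) (S T : List (A × Bool)) (h1 : r σ = s :: S)
      (h2 : r (!σ) = t :: T) : Lnk r s t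
  | right (σ : Bool) (x y : A × Bool) (T B : List (A × Bool)) (h1 : r σ = T ++ [x])
      (h2 : r (!σ) = B ++ [y]) : Lnk r (sinv x) (sinv y)

/-- two directions in the same sector -/
def Sim (r : Bool → List (A × Bool)) : A × Bool → A × Bool → Prop := Relation.EqvGen (Lnk r)

/-- no turn of the word stays in a sector -/
def Adm (r : Bool → List (A × Bool)) (U : List (A × Bool)) : Prop :=
  List.IsChain (fun u w => ¬ Sim r (sinv u) w) U

/-- no vertex has exactly one sector -/
def RowAdm (r : Bool → List (A × Bool)) : Prop := ∀ σ, Adm r (r σ)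

theorem Sim.refl {r : Bool → List (A × Bool)} (p : A × Bool) : Sim r p p := Relation.EqvGen.refl _

theorem Sim.symm {r : Bool → List (A × Bool)} {p q : A × Bool} (h : Sim r p q) : Sim r q p :=
  Relation.EqvGen.symm _ _ h

theorem Sim.trans {r : Bool → List (A × Bool)} {p q s : A × Bool} (h : Sim r p q)
    (h' : Sim r q s) : Sim r p s := Relation.EqvGen.trans _ _ _ h h'

theorem Sim.of {r : Bool → List (A × Bool)} {p q : A × Bool} (h : Lnk r p q) : Sim r p q :=
  Relation.EqvGen.rel _ _ h

/-- a map which sends links into the relation -/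
theorem Sim.map {r r' : Bool → List (A × Bool)} (f : A × Bool → A × Bool)
    (h : ∀ p q, Lnk r' p q → Sim r (f p) (f q)) {p q : A × Bool} (hpq : Sim r' p q) :
    Sim r (f p) (f q) := by
  induction hpq with
  | rel p q hpq => exact h p q hpq
  | refl p => exact Sim.refl _
  | symm p q _ ih => exact ih.symm
  | trans p q s _ _ ih1 ih2 => exact ih1.trans ih2

theorem adm_append {r : Bool → List (A × Bool)} {U W : List (A × Bool)} (h : Adm r (U ++ W)) :
    Adm r U ∧ Adm r W := by
  rw [Adm, List.isChain_append] at h
  exact ⟨h.1, h.2.1⟩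

variable [DecidableEq A]

/-- the first letter of `sbs x y z` -/
def dlt (x y z : A × Bool) : A × Bool := if z = sinv x then sinv y else z

theorem sbs_head (x y z : A × Bool) : ∃ R, sbs x y z = dlt x y z :: R := by
  by_cases h : z = sinv x
  · subst h
    exact ⟨[sinv x], by rw [sbs_sinv, dlt, if_pos rfl]⟩
  · by_cases h' : z = x
    · subst h'
      exact ⟨[y], by rw [sbs_self, dlt, if_neg h]⟩
    · exact ⟨[], by rw [sbs, if_neg h', if_neg h, dlt, if_neg h]⟩

theorem sbs_last (x y z : A × Bool) : ∃ R, sbs x y z = R ++ [sinv (dlt x y (sinv z))] := by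
  by_cases h : z = x
  · subst h
    exact ⟨[z], by rw [sbs_self, dlt, if_pos rfl, sinv_sinv]; rfl⟩
  · have h2 : sinv z ≠ sinv x := fun e => h (by rw [← sinv_sinv z, e, sinv_sinv])
    by_cases h' : z = sinv x
    · subst h'
      exact ⟨[sinv y], by rw [sbs_sinv, dlt, if_neg h2, sinv_sinv]; rfl⟩
    · exact ⟨[], by rw [sbs, if_neg h, if_neg h', dlt, if_neg h2, sinv_sinv]; rfl⟩

section step

variable {r r' : Bool → List (A × Bool)} {τ : Bool} {x y : A × Bool} {T B : List (A × Bool)}

theorem y_ne (hxy : y.1 ≠ x.1) : y ≠ sinv x := fun e => hxy (by rw [e]; rfl)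

theorem sy_ne (hxy : y.1 ≠ x.1) : sinv y ≠ sinv x := fun e => hxy (by
  have := congrArg Prod.fst e
  exact this)

theorem sim_dlt (h1 : r τ = T ++ [x]) (h2 : r (!τ) = B ++ [y]) (p : A × Bool) :
    Sim r (dlt x y p) p := by
  by_cases h : p = sinv x
  · subst h
    rw [dlt, if_pos rfl]
    exact (Sim.of (Lnk.right τ x y T B h1 h2)).symm
  · rw [dlt, if_neg h]
    exact Sim.refl _

/-- the key fact: the sectors after the step -/
theorem sim_step (hxy : y.1 ≠ x.1) (h1 : r τ = T ++ [x]) (h2 : r (!τ) = B ++ [y])
    (h1' : r' τ = T.flatMap (sbs x y) ++ [x]) (h2' : r' (!τ) = B.flatMap (sbs x y))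
    (hadm : RowAdm r) :
    (∀ p q, Sim r' (dlt x y p) (dlt x y q) → Sim r p q) ∧ ¬ Sim r' (sinv x) y := by
  rcases List.eq_nil_or_concat B with rfl | ⟨B0, b, rfl⟩
  · -- the other row is empty: no links
    have hno : ∀ p q, Lnk r' p q → Sim r (id p) (id q) := by
      intro p q h
      exfalso
      rcases h with ⟨σ, s, t, S, T', e1, e2⟩ | ⟨σ, s, t, S, T', e1, e2⟩
      · rcases Bool.eq_or_eq_not σ τ with rfl | rfl
        · rw [h2'] at e2; simp at e2
        · rw [h2'] at e1; simp at e1
      · rcases Bool.eq_or_eq_not σ τ with rfl | rfl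
        · rw [h2'] at e2; simp at e2
        · rw [h2'] at e1; simp at e1
    have heq : ∀ p q, Sim r' p q → p = q := by
      intro p q h
      induction h with
      | rel p q h =>
        exfalso
        rcases h with ⟨σ, s, t, S, T', e1, e2⟩ | ⟨σ, s, t, S, T', e1, e2⟩
        · rcases Bool.eq_or_eq_not σ τ with rfl | rfl
          · rw [h2'] at e2; simp at e2
          · rw [h2'] at e1; simp at e1
        · rcases Bool.eq_or_eq_not σ τ with rfl | rfl
          · rw [h2'] at e2; simp at e2
          · rw [h2'] at e1; simp at e1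
      | refl => rfl
      | symm _ _ _ ih => exact ih.symm
      | trans _ _ _ _ _ ih1 ih2 => exact ih1.trans ih2
    refine ⟨fun p q h => ?_, fun h => y_ne hxy (heq _ _ h).symm⟩
    have e := heq _ _ h
    exact (sim_dlt h1 h2 p).symm.trans (e ▸ sim_dlt h1 h2 q)
  · -- the map back
    set π : A × Bool → A × Bool := fun z => if z = sinv x then sinv b else z with hπ
    have hπx : π (sinv x) = sinv b := by rw [hπ]; simp
    have hπn : ∀ z, z ≠ sinv x → π z = z := by
      intro z hz
      rw [hπ]
      simp [hz]
    have hπd : ∀ p, Sim r (π (dlt x y p)) p := by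
      intro p
      by_cases h : p = sinv x
      · subst h
        rw [dlt, if_pos rfl, hπn _ (sy_ne hxy)]
        exact (Sim.of (Lnk.right τ x y T _ h1 h2)).symm
      · rw [dlt, if_neg h, hπn _ h]
        exact Sim.refl _
    rw [List.concat_eq_append] at h2 h2'
    -- first letters
    have hfst : ∀ σ s S, r' σ = s :: S → ∃ s0 S0, r σ = s0 :: S0 ∧ s = dlt x y s0 := by
      intro σ s S e
      rcases Bool.eq_or_eq_not σ τ with rfl | rfl
      · rw [h1'] at e
        rcases T with _ | ⟨t0, T0⟩
        · simp only [List.flatMap_nil, List.nil_append, List.cons.injEq] at e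
          refine ⟨x, [], by rw [h1]; rfl, ?_⟩
          rw [dlt, if_neg (sinv_ne x).symm, e.1]
        · obtain ⟨R, hR⟩ := sbs_head x y t0
          rw [List.flatMap_cons, hR] at e
          simp only [List.cons_append, List.cons.injEq] at e
          exact ⟨t0, T0 ++ [x], by rw [h1]; rfl, e.1.symm⟩
      · rw [h2'] at e
        rcases hB : B0 ++ [b] with _ | ⟨t0, T0⟩
        · simp at hB
        · obtain ⟨R, hR⟩ := sbs_head x y t0
          rw [hB, List.flatMap_cons, hR] at e
          simp only [List.cons_append, List.cons.injEq] at e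
          exact ⟨t0, T0 ++ [y], by rw [h2, hB]; rfl, e.1.symm⟩
    -- last letters
    have hlst : ∀ S s, r' τ = S ++ [s] → s = x := by
      intro S s e
      rw [h1'] at e
      have := congrArg List.getLast? e
      simp only [List.getLast?_append, List.getLast?_singleton] at this
      simpa using this.symm
    have hlst' : ∀ S s, r' (!τ) = S ++ [s] → s = sinv (dlt x y (sinv b)) := by
      intro S s e
      obtain ⟨R, hR⟩ := sbs_last x y b
      rw [h2', List.flatMap_append, List.flatMap_singleton, hR, ← List.append_assoc] at e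
      have := congrArg List.getLast? e
      simp only [List.getLast?_append, List.getLast?_singleton] at this
      simpa using this.symm
    have hlnk : ∀ p q, Lnk r' p q → Sim r (π p) (π q) := by
      intro p q h
      rcases h with ⟨σ, s, t, S, T', e1, e2⟩ | ⟨σ, s, t, S, T', e1, e2⟩
      · obtain ⟨s0, S0, f1, rfl⟩ := hfst _ _ _ e1
        obtain ⟨t0, T0, f2, rfl⟩ := hfst _ _ _ e2
        exact ((hπd s0).trans (Sim.of (Lnk.left σ s0 t0 S0 T0 f1 f2))).trans (hπd t0).symm
      · rcases Bool.eq_or_eq_not σ τ with rfl | rfl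
        · obtain rfl := hlst _ _ e1
          obtain rfl := hlst' _ _ e2
          rw [hπx, sinv_sinv]
          exact (hπd _).symm
        · rw [Bool.not_not] at e2
          obtain rfl := hlst _ _ e2
          obtain rfl := hlst' _ _ e1
          rw [hπx, sinv_sinv]
          exact hπd _
    refine ⟨fun p q h => ((hπd p).symm.trans (Sim.map π hlnk h)).trans (hπd q), fun h => ?_⟩
    have h3 := Sim.map π hlnk h
    rw [hπx, hπn _ (y_ne hxy)] at h3
    have h4 := hadm (!τ)
    rw [h2, Adm, List.append_assoc, List.isChain_append] at h4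
    have h5 := h4.2.1
    rw [List.singleton_append, List.isChain_pair] at h5
    exact h5 h3

/-- **a Rauzy step keeps admissible words admissible** -/
theorem adm_step (hxy : y.1 ≠ x.1) (h1 : r τ = T ++ [x]) (h2 : r (!τ) = B ++ [y])
    (h1' : r' τ = T.flatMap (sbs x y) ++ [x]) (h2' : r' (!τ) = B.flatMap (sbs x y))
    (hadm : RowAdm r) : ∀ U, Adm r U → Adm r' (U.flatMap (sbs x y)) := by
  obtain ⟨k1, k2⟩ := sim_step hxy h1 h2 h1' h2' hadm
  have hin : ∀ u, Adm r' (sbs x y u) := by
    intro u
    by_cases h : u = x
    · subst h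
      rw [sbs_self, Adm, List.isChain_pair]
      exact k2
    · by_cases h' : u = sinv x
      · subst h'
        rw [sbs_sinv, Adm, List.isChain_pair, sinv_sinv]
        exact fun e => k2 e.symm
      · rw [sbs, if_neg h, if_neg h']
        exact List.isChain_singleton _
  intro U
  induction U with
  | nil => intro _; exact List.isChain_nil
  | cons u U ih =>
    intro hU
    rw [List.flatMap_cons]
    have hU' : Adm r U := (adm_append (U := [u]) (W := U) hU).2
    refine List.isChain_append.2 ⟨hin u, ih hU', ?_⟩
    intro a ha c hc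
    obtain ⟨R, hR⟩ := sbs_last x y u
    rw [hR, List.getLast?_append, List.getLast?_singleton] at ha
    simp only [Option.some_or, Option.mem_def, Option.some.injEq] at ha
    subst ha
    rcases U with _ | ⟨w, U⟩
    · simp at hc
    · obtain ⟨R', hR'⟩ := sbs_head x y w
      rw [List.flatMap_cons, hR'] at hc
      simp only [List.cons_append, List.head?_cons, Option.mem_def, Option.some.injEq] at hc
      subst hc
      rw [sinv_sinv]
      intro e
      have h3 : ¬ Sim r (sinv u) w := by
        have := hU
        rw [Adm, List.isChain_cons_cons] at this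
        exact this.1
      exact h3 (k1 _ _ e)

theorem rowAdm_step (hxy : y.1 ≠ x.1) (h1 : r τ = T ++ [x]) (h2 : r (!τ) = B ++ [y])
    (h1' : r' τ = T.flatMap (sbs x y) ++ [x]) (h2' : r' (!τ) = B.flatMap (sbs x y))
    (hadm : RowAdm r) : RowAdm r' := by
  have key := adm_step hxy h1 h2 h1' h2' hadm
  intro σ
  rcases Bool.eq_or_eq_not σ τ with rfl | rfl
  · have h := key _ (hadm σ)
    rw [h1, List.flatMap_append, List.flatMap_singleton, sbs_self] at h
    rw [h1']
    have e : T.flatMap (sbs x y) ++ [x, y] = (T.flatMap (sbs x y) ++ [x]) ++ [y] := by simp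
    rw [e] at h
    exact (adm_append h).1
  · have h := key _ (hadm (!τ))
    rw [h2, List.flatMap_append] at h
    rw [h2']
    exact (adm_append h).1

end step

end Pool.Agent.Lib.MP_e3aa0a_gt.SM13
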